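import Pool.Agent.H839.Kim.Crit

/-!
# When is the category of Chow motives over a finite field abelian? A criterion by kernels and cycle
# classes

Let `C = CHMot(k)` be the category of Chow motives with rational coefficients over a finite field `k`
with `q` elements, or a full rigid tensor subcategory closed under direct sums. We use only its
standard formal properties, collected in `FrobeniusCohomology`: `C` is a `ℚ`-linear rigid symmetric
monoidal category with `End(𝟙) = ℚ`, with the `ℓ`-adic cohomology groups, the Künneth formula, the
Frobenius endomorphisms, the Lefschetz trace formula, and Deligne's theorem on weights.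

Abelian means that kernels and cokernels exist and that the canonical map from the coimage to the
image is an isomorphism for *every* morphism. We show that, once kernels exist, the second condition
has to be checked only for the simplest morphisms. The following are equivalent:

1. `C` is abelian;
2. kernels exist, and every cycle class `f : 𝟙 ⟶ X`, `f ≠ 0`, is the kernel of a morphism;
3. kernels exist, and every morphism `e : 𝟙 ⟶ L` to an *invertible* object which is a monomorphism
   and an epimorphism is an isomorphism.

The last condition in 3 cannot be omitted or deduced from the formal properties used here: the vector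
bundles on the projective line form a rigid tensor category with kernels and cokernels and with
`End(𝟙)` the ground field, and there are bimorphisms from the trivial bundle to `O(1)`.

Proof of `3 ⟹ 2`: a morphism `f ≠ 0` which has a kernel is a monomorphism. Let `π` be its cokernel, and
`ι : I ⟶ X` the kernel of `π`, so that `f = e ι`. The morphism `f ⊗ id - id ⊗ f` from `X` to `X ⊗ X` is
zero on `f`, hence factors through `π` and is zero on `I`. So `e ⊗ id = id ⊗ e` on `I`, which implies that
`e` is an epimorphism, that the symmetry of `I ⊗ I` is the identity, and that `I` is invertible.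
Proof of `2 ⟹ 1`: since cokernels exist (by duality), all objects are finite-dimensional in the
sense of Kimura (see the result `DiagonalCokernels`), so we may assume that the monomorphism
`m : A ⟶ B` starts from an object with `Λ^{r+1} A = 0` and `Λ^r A ≠ 0` (or the same for symmetric
powers). The name of `Λ^r m`, a morphism from `𝟙` to `B^{⊗ r} ⊗ (A^{⊗ r})^∨`, is the kernel of a
morphism, and it follows that `m` is the kernel of `B ⟶ Λ^{r+1} B ⊗ (A^{⊗ r})^∨`, `b ↦ b ∧ Λ^r m`.
-/

set_option autoImplicit false

open CategoryTheory MonoidalCategory Limits

universe v u w

namespace Pool.Agent.Results.MP_6c4da4_ag.AbelianCriterion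

open Pool.Agent.Q227.AB Pool.Agent.H839.Kim

lemma isIso_of_abelian {C : Type u} [Category.{v} C] (A : Abelian C) {X Y : C} (e : X ⟶ Y)
    (h1 : Mono e) (h2 : Epi e) : IsIso e :=
  isIso_of_mono_of_epi e

lemma hasKernels_of_abelian {C : Type u} [Category.{v} C] [Z : HasZeroMorphisms C]
    (A : Abelian C) : @HasKernels C _ Z := by
  have h1 := A.has_kernels
  have h2 : Z = @Preadditive.preadditiveHasZeroMorphisms C _ A.toPreadditive :=
    Subsingleton.elim _ _
  rw [h2]
  exact h1

/-- **The category of Chow motives over a finite field is abelian if and only if it has kernels and
the non-zero cycle classes are kernels, if and only if it has kernels and the bimorphisms from the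
unit object to invertible objects are isomorphisms.** -/
theorem result {C : Type u} [Category.{v} C] [Preadditive C] [Linear ℚ C] [MonoidalCategory C]
    [SymmetricCategory C] [RightRigidCategory C] [MonoidalPreadditive C] [HasFiniteBiproducts C]
    {K : Type w} [Field K] [CharZero K] [IsAlgClosed K] {q : ℕ}
    (hq : 1 < q) (R : FrobeniusCohomology C K q) :
    List.TFAE [
      Nonempty (Abelian C),
      HasKernels C ∧ ∀ (X : C) (f : 𝟙_ C ⟶ X), f ≠ 0 → Nonempty (NormalMono f),
      HasKernels C ∧ ∀ (L : C) (e : 𝟙_ C ⟶ L), IsInvertible L → Mono e → Epi e → IsIso e] := by
  tfae_have 1 → 3 := by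
    rintro ⟨A⟩
    exact ⟨hasKernels_of_abelian A, fun L e _ h1 h2 => isIso_of_abelian A e h1 h2⟩
  tfae_have 3 → 2 := by
    rintro ⟨hk, h⟩
    have hc := hasCokernels_of_hasKernels C
    exact ⟨hk, fun X f hf => (unit_isKernel R.end_unit h f hf).normal⟩
  tfae_have 2 → 1 := by
    rintro ⟨hk, h⟩
    have hc := hasCokernels_of_hasKernels C
    have hid : IsIdempotentComplete C :=
      (Idempotents.isIdempotentComplete_iff_idempotents_have_kernels C).2 fun X p _ => inferInstance
    have hR : NoPhantoms R := noPhantoms_of_cokernels R hq fun M => inferInstance
    have hmono : ∀ {X Y : C} (f : X ⟶ Y) [Mono f], Nonempty (NormalMono f) := by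
      intro X Y f _
      obtain ⟨W, w, hw⟩ := isKernel_of_mono R hq hR
        (fun {X} f hf => ⟨_, _, KernelOf.of_normal (h X f hf).some⟩) f
      exact hw.normal
    exact ⟨{ normalMonoOfMono := hmono
             normalEpiOfEpi := fun f _ => normalEpi_of_normalMono C hmono f
             has_finite_products := inferInstance
             has_kernels := hk
             has_cokernels := hc }⟩
  tfae_finish

end Pool.Agent.Results.MP_6c4da4_ag.AbelianCriterion
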