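import Pool.Agent.H839.Kim.Final

/-!
# Over a finite field, the cokernels of the classes of the diagonals decide the finite
# dimensionality of Chow motives

Let `C = CHMot(k)` be the category of Chow motives with rational coefficients over a finite field `k`
with `q` elements, or a full rigid tensor subcategory closed under direct sums and direct summands.
We use only its standard formal properties, collected in `FrobeniusCohomology`: `C` is a `ℚ`-linear
rigid symmetric monoidal category with `End(𝟙) = ℚ`, with the `ℓ`-adic cohomology groups, the Künneth
formula, the Frobenius endomorphisms, the Lefschetz trace formula, and Deligne's theorem on weights.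

An abelian category has cokernels. Here we ask for the cokernels of very few morphisms only: of the
coevaluations `𝟙 ⟶ M ⊗ M^∨`, that is of the classes of the diagonals (for `M = (X, p, m)` the class of
the correspondence `p`). It turns out that the existence of these cokernels is *equivalent* to the
conjecture of Kimura for the motives in `C`, to the nilpotence conjecture, and to the conservativity
of the `ℓ`-adic realization:

1. for every `M`, the coevaluation `𝟙 ⟶ M ⊗ M^∨` has a cokernel in `C`;
2. there are no phantoms: if `H^i(M) = 0` for all `i` then `M = 0`;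
3. every `M` is finite-dimensional in the sense of Kimura: `M = P ⊕ N`, where an exterior power of `P`
   and a symmetric power of `N` vanish;
4. the same with the powers of degree `b(P) + 1` and `b(N) + 1`, where `b` is the sum of the Betti
   numbers;
5. numerically trivial endomorphisms `f` of `M` satisfy `f ^ b(M) = 0`;
6. every `M ≠ 0` has an endomorphism with non-zero trace.

In particular, if `CHMot(k)` is abelian then all of this holds.
The proof of `1 ⟹ 2`: if `π : X ⟶ P` is a cokernel of `f : 𝟙 ⟶ X` and `f ≠ 0`, then
`tr(F_P^n) = tr(F_X^n) - 1` for all `n`; if `X` has no cohomology this is `-1`, and `P` would have the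
Frobenius eigenvalue `1` in odd degree, contradicting the weights. The proof of `2 ⟹ 3`: for large `n`
the permutations of the factors of `M^{⊗ n}` are linearly dependent. A relation of the smallest
possible degree, contracted with powers of Frobenius, yields a non-trivial polynomial relation for
the Frobenius endomorphism of `M`. Hence `M` is the direct sum of an even and an odd part.
-/

set_option autoImplicit false

open CategoryTheory MonoidalCategory Limits

universe v u w

namespace Pool.Agent.Results.MP_6c4da4_ag.DiagonalCokernels

open Pool.Agent.Q227.AB Pool.Agent.H839.Kim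

/-- **The classes of the diagonals have cokernels if and only if all motives are
finite-dimensional.** -/
theorem result {C : Type u} [Category.{v} C] [Preadditive C] [Linear ℚ C] [MonoidalCategory C]
    [SymmetricCategory C] [RightRigidCategory C] [MonoidalPreadditive C] [HasBinaryBiproducts C]
    [IsIdempotentComplete C] {K : Type w} [Field K] [CharZero K] [IsAlgClosed K] {q : ℕ}
    (hq : 1 < q) (R : FrobeniusCohomology C K q) :
    List.TFAE [
      ∀ M : C, HasCokernel (η_ M (Mᘁ)),
      ∀ M : C, (∀ i, Subsingleton ((R.H i).obj M)) → IsZero M,
      ∀ M : C, ∃ P N : C, Nonempty (M ≅ P ⊞ N) ∧ (∃ n, ExtZero P n) ∧ ∃ n, SymZero N n,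
      ∀ M : C, ∃ P N : C, Nonempty (M ≅ P ⊞ N) ∧
        ExtZero P (R.betti P + 1) ∧ SymZero N (R.betti N + 1),
      ∀ (M : C) (f : M ⟶ M), NumTriv f → pw f (R.betti M) = 0,
      ∀ M : C, ¬ IsZero M → ∃ g : M ⟶ M, tr g ≠ 0] := by
  tfae_have 1 → 2 := noPhantoms_of_cokernels R hq
  tfae_have 2 → 4 := fun h M => kimura R hq h M
  tfae_have 4 → 3 := fun h M => by
    obtain ⟨P, N, e, h1, h2⟩ := h M
    exact ⟨P, N, e, ⟨_, h1⟩, ⟨_, h2⟩⟩
  tfae_have 3 → 2 := by
    intro h M hM
    obtain ⟨P, N, ⟨e⟩, ⟨n, hn⟩, ⟨m, hm⟩⟩ := h M
    have key : ∀ (P : C) (i : P ⟶ M) (p : M ⟶ P), i ≫ p = 𝟙 P → ∀ (s : ℤ), s * s = 1 → ∀ n,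
        permSum s P n = 0 → IsZero P := by
      intro P i p hip s hs n hn
      have hP : ∀ j, Subsingleton ((R.H j).obj P) := by
        intro j
        have h1 : R.betti P ≤ R.betti M := betti_le_of_retract R i p hip
        have h2 : R.betti M = 0 := by
          unfold FrobeniusCohomology.betti
          apply finsum_eq_zero_of_forall_eq_zero
          intro i
          have := hM i
          exact Module.finrank_zero_of_subsingleton
        have h3 := sum_le_betti R P {j}
        rw [Finset.sum_singleton] at h3
        have h4 : Module.finrank K ((R.H j).obj P) = 0 := by omega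
        exact Module.finrank_zero_iff.1 h4
      cases n with
      | zero =>
        exfalso
        exact R.unit_ne_zero hn
      | succ n =>
        have h1 := pw_eq_zero R s hs (𝟙 P)
          (fun j _ => t_eq_zero_of_subsingleton R hP _) hn
        rw [pw_id] at h1
        exact (IsZero.iff_id_eq_zero P).2 h1
    have hP := key P (biprod.inl ≫ e.inv) (e.hom ≫ biprod.fst) (by simp) (-1) (by norm_num) n hn
    have hN := key N (biprod.inr ≫ e.inv) (e.hom ≫ biprod.snd) (by simp) 1 (by norm_num) m hm
    refine IsZero.of_iso ?_ e
    rw [IsZero.iff_id_eq_zero]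
    apply biprod.hom_ext
    · exact hP.eq_of_tgt _ _
    · exact hN.eq_of_tgt _ _
  tfae_have 2 → 5 := fun h M f hf => nilp R hq h f hf
  tfae_have 5 → 6 := by
    intro h M hM
    by_contra hc
    push Not at hc
    apply hM
    have h1 := h M (𝟙 M) (fun g => by rw [Category.id_comp]; exact hc g)
    rw [pw_id] at h1
    exact (IsZero.iff_id_eq_zero M).2 h1
  tfae_have 6 → 1 := fun h M => hasCokernel_coev h R M
  tfae_finish

end Pool.Agent.Results.MP_6c4da4_ag.DiagonalCokernels
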