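import Mathlib
import Pool.Agent.H298.Core.MotCat
import Pool.Agent.H298.Core.Double

/-!
# Abelian categories of Chow motives over finite fields: abelian varieties whose CM fields have
irreducible odd part or primitive core

**In short.** Let `K` be a CM field of degree `2 g`, `K₀` its maximal real subfield and `2 ^ v`, `1
≤ v ≤ g`, the degree of the Galois closure of `K` over the Galois closure of `K₀` (typically `v =
g`). The theorem is for the Weil numbers `π` all powers of which generate `K`, in the following
cases (`FieldCriteria`), among others: **(a) `v > g / 3`; (b) the slopes of `π` have odd
denominators, for example `π` is ordinary, and `v > g / 4`, or `g` is the product of two prime
numbers and `v > 1`, or `g` is prime, or `K` has few divisors in the sense of `FewDivisors`; (c) the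
Galois group of `K₀` is triply transitive, for example the symmetric group, or the alternating group
if `g ≥ 5`, `g ≥ 3`, and no norm of `π` to an imaginary quadratic field is supersingular** (this is
so if `g` is odd and `π` is ordinary). The general hypothesis (`IsCoreWeil`) is explained below.

**Cores.** Let `X` be the set of the complex embeddings of the CM field `K`, `[K : ℚ] = 2 g`. The
automorphisms of `ℂ` which map all elements of `X` to themselves or to their complex conjugates are
called sign changes. The first core of `φ : X` consists of the `ψ : X` which are moved by the same
sign changes as `φ`. If one uses all automorphisms which map the elements of the first core to
themselves or to their conjugates, one obtains the second core, inside of the first one, and so on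
(`coreOf`). The cores of the same index have the same number `2 c` of elements, `c` divides `g`, and
the smallest such number `c` is the core number of `K`. It satisfies `c ≤ g / v`, and if a prime
number `q` divides the discriminant of `K`, but not the discriminant of the maximal real subfield,
then `q ^ c` divides the discriminant of `K`. `FewDivisors` says that all divisors of `g` which
satisfy these conditions are one or prime.

**The Weil numbers.** Let `p` be a prime number, `q = p ^ a`, let `K i` (`i` in a finite set) be CM
fields and `π i` Weil numbers for `q` in `K i` such that each power `(π i) ^ n`, `n ≥ 1`, generates
`K i`. By Honda and Tate they correspond to the abelian varieties over the field with `q` elements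
which are geometrically simple with commutative endomorphism ring, and to other abelian varieties.
Suppose that for each `K = K i` one of the following conditions holds (`IsCoreWeil`).

* The rational functions on `X` which change their sign under complex conjugation are an irreducible
  representation of the automorphisms of `ℂ` (`OddIrreducible`), for example because the core number
  of `K` is one.
* There is a core with `c` pairs of embeddings, and `c` is a prime number, or `c = [K : F]` for a
  subfield `F`, not totally real, such that the automorphisms of `ℂ` act doubly transitively on the
  extensions to `K` of an embedding of `F` (`PrimitiveCore`); and there is **no** subfield `F` with
  `[K : F] = c`, not totally real, in which the norm `N` of `π i` is supersingular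
  (`SupersingularNorm`; this means that `N ^ 2 / q ^ c` is a root of unity).

The condition on the norms in the second case is necessary and sufficient for the absence of
relations between the conjugates of `π i`, and so of exotic Tate classes on the
powers of its abelian variety; it is satisfied if `c = 2`, if `c` is odd and the slopes of `π i`
have odd denominators (for example in the ordinary case), and if all subfields `F` with `[K : F] =
c` are totally real. There are no other conditions on `π i`, its slopes, the decomposition of `p` in
`K i`, the degree or the Galois group of `K i`. The fields `K i` are pairwise independent
(`PairwiseIndep`; no condition if there is only one field). Let `f i` be monic polynomials whose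
complex roots are conjugates of `π i` (`IsPolyOf`), for instance powers of the characteristic
polynomials of Frobenius.

Consider the abelian varieties `A` over the field with `Q = q ^ s` elements which are isogenous to a
product of powers of abelian varieties coming from the field with `q` elements, with characteristic
polynomials `f i`. Let `𝒱` be **any** class of smooth projective varieties over the field with `Q`
elements which is closed under products, and `𝒵` **any** set of varieties in this class, closed under
products, such that each variety of the class `𝒱` is dominated by a product `A × Z`, where `A` is a
variety of this kind in the class `𝒱`, where `Z` belongs to `𝒵`, and where

* the eigenvalues `ρ` of Frobenius on the cohomology of `Z` and their conjugates are unrelated to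
  the fields `K i` (`UnrelatedTo`): a function `n` on the complex embeddings of `K i` with `n (conj
  φ) = - n φ` which is invariant under all automorphisms of `ℂ` that fix a power of `ρ` is zero.
  This is so if for each embedding `ψ` of `K i` some automorphism which fixes a power of `ρ` is the
  complex conjugation on `ψ (K i)`: for instance, if a power of `ρ` lies in a field linearly
  disjoint from the normal closures of the `K i`, or in a totally real field. It is also so if the
  degree of `ρ` is less than twice the dimension of each nonzero space of functions `n` stable under
  all automorphisms of `ℂ`.

**The category of Chow motives of the class `𝒱` is abelian and semisimple if and only if rational and
numerical equivalence (with rational coefficients) coincide on the varieties in `𝒵`**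
(`MotivesReduce`): the abelian varieties `A` may be removed. In particular, if `𝒵` consists of the
powers of a point, or of products of elliptic curves, or of other varieties on which the two
equivalence relations are known to coincide, then **the category of Chow motives generated by all the
`A` (with given `π i`), all their products and powers, and their products with the varieties in `𝒵`,
is abelian and semisimple.** No case of the conjectures of Tate, Beilinson is assumed. (If `𝒵` consists
of all varieties of a smaller class, then the last condition means that the category of Chow motives
of this smaller class is abelian and semisimple, by the theorem of Jannsen and its converse; and
semisimplicity is automatic for abelian categories generated by varieties of abelian type, see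
`AbelianTypeMotives`, `AbelianVarieties` in the library.)

The category `CHMot C` of Chow motives of a class of varieties consists of the direct summands of the
finite direct sums of the Tate twists `h(X)(m)`, `X` in the class, `m` an integer; for all smooth
projective varieties this is the category `CHMot(k)` of the triples `(X, p, m)`; so these are full
subcategories of `CHMot(k)`.

Here `IsChow`, `PreservesOne`, `IsWeil`, `IsStandard` are the formal properties of the Chow groups
with rational coefficients and of a Weil cohomology theory `H` with coefficients in an algebraically
closed field, for the varieties of the class `𝒱`. What is used besides are known theorems
(`IsDominatedClass`): Frobenius of `A × Z` acts on `CH^i` as multiplication by `Q ^ i`; `IsAbelian`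
(`H(A)` is generated by `H^1`, Frobenius is diagonalizable on `H^1` by Weil, and the theorem of Tate on
divisors), and `kimura` (if rational and homological equivalence coincide on all varieties in `𝒵`, the
motives of the varieties of the class `𝒱` are finite-dimensional, and homologically trivial
self-correspondences are nilpotent). `X` is dominated by `A × Z` if there are a morphism
`g : A × Z → X` and a class `w` on `A × Z` with `g_* w = [X]`.

Part two (`Criteria`) contains the criteria: the cases (a), (b) and (c) above (`FieldCriteria`), and the
case of a doubly transitive maximal real subfield, `g` odd or `g - 1` a prime number. The fields `K i`
are pairwise independent, for example, if for any two of them there is a prime number which divides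
the discriminant of one of them, but not that of its maximal real subfield and not that of the
other one. The condition on the norms is also necessary for the absence of relations
(`NormCriteria`, in the hand-in of the same name on the page MP_0f183b_ag).

**What was known.** In the library this is proved for almost all families of Weil polynomials of
given dimensions, in terms of the rank of the group generated by the eigenvalues
(`AlmostAllAbelianFactors`, whose theorem of Jannsen for Chow motives is used, and
`AlmostAllAbelianMotives`); for the powers of one abelian variety without exotic Tate classes the
equality of rational and numerical equivalence is due to Soulé and Kahn (with Kimura's theorem), and
in prime dimension the absence of such classes to Tankeev. New here are the abelian varieties of all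
dimensions in the fields with primitive cores, with a condition on the norms which is necessary and
sufficient for the absence of relations, without exceptional types.

**The proof.** It is sufficient to show for each field `K` that the function `w`, the slope of `φ
(π)` minus one half, on the set `X` is not orthogonal to a nonzero space of odd functions which is
stable under the automorphisms of `ℂ`. If the odd functions are irreducible this is clear. Let `r`
be an element of such a space with integral values. By the sign changes one can cut `r` down; this
gives, by induction on the size of the support and on the index of the core, a relation which is
supported in one core. The automorphisms preserving the core act transitively on it. If it has `2 c`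
elements with a prime number `c`, then a Sylow subgroup contains an element which has two orbits of
length `c` on the core, exchanged by the complex conjugation. Since the cyclotomic polynomial is
irreducible, either `w (τ φ) = w (τ φ')` for all `τ` with two different `φ`, `φ'` of the core, or
the sums of `w` over the translates of one orbit are zero, and the orbit consists of the extensions
of an embedding of a subfield `F` with `[K : F] = c`, which is not totally real. In the doubly
transitive case the extensions of an embedding of `F` are one half of the core (a sign change moves
all of them or none), and an average over a stabilizer gives the same two alternatives. In the first
case `φ (π)` and `φ' (π)` have the same absolute values at all places of all conjugates, so they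
differ by a root of unity, and a power of `π` does not generate `K`. In the second case the norm of
`π` in `F` is supersingular. Conversely a supersingular norm is a relation, by Kronecker's theorem.
For the cases (a), (b) and (c) one uses that a sign change is determined by the first cores which it
moves, so that `2 ^ v ≤ 2 ^ (g / c)`, and that for a triply transitive group either the odd
functions are irreducible or the signs are given by a character of the group, so that `K` contains
an imaginary quadratic field. It follows that the correspondence on `A` given by the sum of the
products of dual classes of divisor products acts as the identity on the Chow groups of `A × Z`, if
homologically trivial self-correspondences of `A × Z` are nilpotent: the Frobenius endomorphism of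
`A × Z` is the multiplication by `Q ^ i` on `CH^i`, so that the Frobenius endomorphism of `A`
satisfies a power of the polynomial reciprocal to that of the Frobenius endomorphism of `Z`; this
polynomial is prime to the one whose value on `H(A)` lies in the part generated by divisors, and the
difference of the two correspondences is nilpotent. So the Chow groups of `A × Z` are the direct sum
of the products of finitely many products of divisors on `A` with the Chow groups of `Z`; and
rational and numerical equivalence coincide on `A × Z`, and on all varieties dominated by `A × Z`, if
they coincide on `Z`. Finally the category of Chow motives of a class of varieties is abelian and
semisimple if and only if rational and numerical equivalence coincide on its varieties, by the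
theorem of Jannsen for Chow motives and its converse (helper543 in the library).
-/

set_option autoImplicit false

namespace Pool.Agent.Results.MP_6c4da4_ag.SmallCoreFields

open NumberField Polynomial Module Pool.Agent.H977R3.CM Pool.Agent.Y1.CT Pool.Agent.Q64.L
  Pool.Agent.H298.Core

/-- A CM field of degree `2 g` has few divisors if the degree of its Galois closure over the Galois
closure of the maximal real subfield is larger than `2 ^ (g / 4)`. The criteria for `IsCoreWeil`
(`FieldCriteria`), for the Weil numbers all powers of which generate a CM field; and the criterion for
a doubly transitive maximal real subfield, if `g` is odd or `g - 1` is a prime number. -/
def Criteria : Prop :=
  ∀ (K : Type) [Field K] [NumberField K] [IsCMField K], (LargeClosure K 4 → FewDivisors K) ∧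
    ∀ (p : ℕ) [Fact p.Prime] (a : ℕ), 0 < a → ∀ π : K, Pool.Agent.Y156.P.IsSimpleWeil p a π →
      FieldCriteria p a π ∧
      (TwiceTransitive (maximalRealSubfield K) →
        Odd (finrank ℚ K / 2) ∨ (finrank ℚ K / 2 - 1).Prime →
        (∀ F : IntermediateField ℚ K, 2 * finrank F K = finrank ℚ K → ¬ IsTotallyReal F →
          ¬ SupersingularNorm p a π F) → IsCoreWeil p a π)

theorem criteria_hold : Criteria :=
  fun K _ _ _ => ⟨(coreFacts_hold K).2.2.2.2.2.1, fun p _ a ha π hπ =>
    ⟨(allCriteria_hold.1.2.1 K p a ha π hπ).2, fun hT hg hF =>
      (allCriteria_hold.2.2 K hT (allCriteria_hold.2.1 _ hg)).2 p a π hπ hF⟩⟩

/-- **The category of Chow motives of the class `𝒱` is abelian and semisimple if and only if rational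
and numerical equivalence coincide on the varieties in `𝒵`, if `𝒱` is dominated by products `A × Z`, `Z`
in `𝒵` unrelated, for all abelian varieties `A` whose Weil numbers lie in independent CM fields with
irreducible odd part or primitive core.** -/
theorem result :
    (∀ (p : ℕ) [Fact p.Prime] (a : ℕ), 0 < a → ∀ (I : Type) [Fintype I] (K : I → Type)
      [∀ i, Field (K i)] [∀ i, NumberField (K i)] [∀ i, IsCMField (K i)], PairwiseIndep K →
      ∀ (π : ∀ i, K i) (f : I → ℤ[X]), (∀ i, IsCoreWeil p a (π i)) →
      (∀ i, IsPolyOf (π i) (f i)) → MotivesReduce (UnrelatedRoots K) (p ^ a) f) ∧ Criteria :=
  ⟨fun _ _ _ ha _ _ _ _ _ _ hK _ _ hπ hf =>
    motivesReduce (Nat.one_lt_pow ha.ne' (Fact.out : Nat.Prime _).one_lt)
      (good_core ha hK hπ hf), criteria_hold⟩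

end Pool.Agent.Results.MP_6c4da4_ag.SmallCoreFields
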